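import Pool.Agent.Q329.CNF.Defs
import Pool.Agent.TH700.PA.Density

/-! Mixtures of planted 3-CNF formulas are far from satisfiable (helper329). -/

set_option autoImplicit false
set_option linter.unusedSectionVars false
set_option linter.unusedVariables false

open Finset Pool.Agent.TH700.PA

namespace Pool.Agent.Q329.CNF

variable {n t : ℕ}

/-- the formula of all clauses satisfied by `q` -/
def zz (q : Fin n → Bool) (v : Clause n) : Bool := decide (pat q v.1 ≠ v.2)

lemma zz_sat (q : Fin n → Bool) : Satisfiable (zz q) := by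
  refine ⟨q, fun v hv => ?_⟩
  have h : decide (pat q v.1 ≠ v.2) = true := hv
  have h2 : pat q v.1 ≠ v.2 := of_decide_eq_true h
  exact h2

/-- the variable `i` occurs in the triple `T` -/
def Occ (i : Fin n) (T : Fin n × Fin n × Fin n) : Prop := T.1 = i ∨ T.2.1 = i ∨ T.2.2 = i

instance (i : Fin n) (T : Fin n × Fin n × Fin n) : Decidable (Occ i T) := by
  unfold Occ; infer_instance

/-- the number of triples of part `j` in which `i` occurs -/
def wt (jj : Fin n × Fin n × Fin n → Fin t) (j : Fin t) (i : Fin n) : ℕ :=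
  (univ.filter fun T => jj T = j ∧ Occ i T).card

/-- the significant pairs -/
def sig (jj : Fin n × Fin n × Fin n → Fin t) : Finset (Fin t × Fin n) :=
  univ.filter fun x => n ^ 2 ≤ 2 * t * wt jj x.1 x.2

/-- the bad triples -/
def bad (jj : Fin n × Fin n × Fin n → Fin t) (q : Fin n → Bool) (b : Fin t → Fin n → Bool) :
    Finset (Fin n × Fin n × Fin n) := univ.filter fun T => pat (b (jj T)) T ≠ pat q T

/-- There are many significant pairs. -/
lemma sig_card (jj : Fin n × Fin n × Fin n → Fin t) (ht : 1 ≤ t)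
    (hp : ∀ j, 64 * (univ.filter fun T => jj T = j).card ≤ n ^ 3) :
    8 * n ≤ (sig jj).card := by
  rcases Nat.eq_zero_or_pos n with h0 | h0
  · omega
  obtain ⟨Vj, hVj⟩ : ∃ Vj : Fin t → Finset (Fin n), Vj = fun j =>
    univ.filter fun i => n ^ 2 ≤ 2 * t * wt jj j i := ⟨_, rfl⟩
  have hsum : (sig jj).card = ∑ j, (Vj j).card := by
    have h1 : sig jj = univ.biUnion fun j => (Vj j).map ⟨fun i => (j, i), fun a b h => by
        simpa using h⟩ := by
      ext ⟨j, i⟩
      simp [sig, hVj]
    rw [h1, card_biUnion]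
    · exact sum_congr rfl fun j _ => card_map _
    · intro j _ j' _ hne
      rw [Function.onFun, disjoint_left]
      rintro ⟨a, i⟩ h2 h3
      simp only [mem_map, Function.Embedding.coeFn_mk, Prod.mk.injEq] at h2 h3
      obtain ⟨-, -, h4, -⟩ := h2
      obtain ⟨-, -, h5, -⟩ := h3
      exact hne (h4.trans h5.symm)
  -- one part
  have hone : ∀ j, 32 * t * (univ.filter fun T => jj T = j).card ≤
      2 * t * ((Vj j).card * n ^ 2) + 16 * n ^ 3 := by
    intro j
    obtain ⟨m, hm⟩ : ∃ m, m = (univ.filter fun T : Fin n × Fin n × Fin n =>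
      jj T = j ∧ T.1 ∈ Vj j ∧ T.2.1 ∈ Vj j ∧ T.2.2 ∈ Vj j).card := ⟨_, rfl⟩
    have h1 : (univ.filter fun T => jj T = j).card ≤ m + ∑ i ∈ (Vj j)ᶜ, wt jj j i := by
      have h2 : (univ.filter fun T => jj T = j) ⊆ (univ.filter fun T : Fin n × Fin n × Fin n =>
          jj T = j ∧ T.1 ∈ Vj j ∧ T.2.1 ∈ Vj j ∧ T.2.2 ∈ Vj j) ∪
          ((Vj j)ᶜ).biUnion fun i => univ.filter fun T => jj T = j ∧ Occ i T := by
        intro T hT
        rw [mem_filter] at hT
        rw [mem_union, mem_filter, mem_biUnion]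
        by_cases h3 : T.1 ∈ Vj j ∧ T.2.1 ∈ Vj j ∧ T.2.2 ∈ Vj j
        · exact Or.inl ⟨mem_univ _, hT.2, h3⟩
        · right
          by_cases h4 : T.1 ∈ Vj j
          · by_cases h5 : T.2.1 ∈ Vj j
            · have h6 : T.2.2 ∉ Vj j := fun h => h3 ⟨h4, h5, h⟩
              exact ⟨T.2.2, mem_compl.mpr h6, mem_filter.mpr ⟨mem_univ _, hT.2,
                Or.inr (Or.inr rfl)⟩⟩
            · exact ⟨T.2.1, mem_compl.mpr h5, mem_filter.mpr ⟨mem_univ _, hT.2,
                Or.inr (Or.inl rfl)⟩⟩
          · exact ⟨T.1, mem_compl.mpr h4, mem_filter.mpr ⟨mem_univ _, hT.2, Or.inl rfl⟩⟩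
      refine (card_le_card h2).trans ((card_union_le _ _).trans ?_)
      rw [← hm]
      exact Nat.add_le_add_left card_biUnion_le _
    have h2 : 2 * t * ∑ i ∈ (Vj j)ᶜ, wt jj j i ≤ n ^ 3 := by
      rw [mul_sum]
      calc ∑ i ∈ (Vj j)ᶜ, 2 * t * wt jj j i ≤ ∑ _i ∈ (Vj j)ᶜ, n ^ 2 := by
            refine sum_le_sum fun i hi => ?_
            rw [mem_compl, hVj, mem_filter, not_and, not_le] at hi
            exact (hi (mem_univ _)).le
        _ ≤ ∑ _i : Fin n, n ^ 2 := sum_le_sum_of_subset (subset_univ _)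
        _ = n ^ 3 := by
            rw [sum_const, card_univ, Fintype.card_fin, smul_eq_mul]
            ring
    have h3 : 16 * m ≤ (Vj j).card * n ^ 2 := by
      have h4 : m ≤ (Vj j).card ^ 3 := by
        rw [hm]
        have h5 : (univ.filter fun T : Fin n × Fin n × Fin n =>
            jj T = j ∧ T.1 ∈ Vj j ∧ T.2.1 ∈ Vj j ∧ T.2.2 ∈ Vj j) ⊆ Vj j ×ˢ Vj j ×ˢ Vj j := by
          intro T hT
          rw [mem_filter] at hT
          rw [mem_product, mem_product]
          exact hT.2.2
        refine (card_le_card h5).trans (le_of_eq ?_)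
        rw [card_product, card_product]
        ring
      have h6 : 64 * m ≤ n ^ 3 := by
        refine le_trans (Nat.mul_le_mul_left 64 ?_) (hp j)
        rw [hm]
        refine card_le_card fun T hT => ?_
        rw [mem_filter] at hT ⊢
        exact ⟨mem_univ _, hT.2.1⟩
      rcases le_or_gt (4 * (Vj j).card) n with h7 | h7
      · calc 16 * m ≤ 16 * (Vj j).card ^ 3 := Nat.mul_le_mul_left _ h4
          _ = (Vj j).card * (4 * (Vj j).card) ^ 2 := by ring
          _ ≤ _ := Nat.mul_le_mul_left _ (Nat.pow_le_pow_left h7 2)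
      · have h8 : n ^ 3 ≤ 4 * ((Vj j).card * n ^ 2) := by
          calc n ^ 3 = n * n ^ 2 := by ring
            _ ≤ (4 * (Vj j).card) * n ^ 2 := Nat.mul_le_mul_right _ h7.le
            _ = _ := by ring
        omega
    calc 32 * t * (univ.filter fun T => jj T = j).card ≤
        32 * t * (m + ∑ i ∈ (Vj j)ᶜ, wt jj j i) := Nat.mul_le_mul_left _ h1
      _ = 2 * t * (16 * m) + 16 * (2 * t * ∑ i ∈ (Vj j)ᶜ, wt jj j i) := by ring
      _ ≤ _ := Nat.add_le_add (Nat.mul_le_mul_left _ h3) (Nat.mul_le_mul_left _ h2)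
  have htot : ∑ j, (univ.filter fun T => jj T = j).card = n ^ 3 := by
    have h1 := card_eq_sum_card_fiberwise (s := (univ : Finset (Fin n × Fin n × Fin n)))
      (f := jj) (t := univ) (fun _ _ => mem_univ _)
    rw [← h1, card_univ, Fintype.card_prod, Fintype.card_prod, Fintype.card_fin]
    ring
  have h5 := sum_le_sum fun j (_ : j ∈ (univ : Finset (Fin t))) => hone j
  rw [← mul_sum, htot, sum_add_distrib, sum_const, card_univ, Fintype.card_fin, smul_eq_mul,
    ← mul_sum, ← sum_mul, ← hsum] at h5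
  have h6 : t * n ^ 2 * (8 * n) ≤ t * n ^ 2 * (sig jj).card := by
    have h7 : 32 * t * n ^ 3 = 2 * (t * n ^ 2 * (8 * n)) + t * (16 * n ^ 3) := by ring
    have h8 : 2 * t * ((sig jj).card * n ^ 2) = 2 * (t * n ^ 2 * (sig jj).card) := by ring
    rw [h7, h8] at h5
    omega
  exact Nat.le_of_mul_le_mul_left h6 (by positivity)

/-- Missing significant pairs make triples bad. -/
lemma miss_le (jj : Fin n × Fin n × Fin n → Fin t) (q : Fin n → Bool)
    (b : Fin t → Fin n → Bool) :
    ((sig jj).filter fun x => b x.1 x.2 ≠ q x.2).card * n ^ 2 ≤ 6 * t * (bad jj q b).card := by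
  have h1 : ((sig jj).filter fun x => b x.1 x.2 ≠ q x.2).card * n ^ 2 ≤
      ∑ x ∈ (sig jj).filter fun x => b x.1 x.2 ≠ q x.2, 2 * t * wt jj x.1 x.2 := by
    rw [← smul_eq_mul, ← sum_const]
    refine sum_le_sum fun x hx => ?_
    rw [mem_filter, sig, mem_filter] at hx
    exact hx.1.2
  have h2 : ∑ x ∈ (sig jj).filter (fun x => b x.1 x.2 ≠ q x.2), wt jj x.1 x.2 ≤
      3 * (bad jj q b).card := by
    have h3 : ∀ x : Fin t × Fin n, wt jj x.1 x.2 =
        ∑ T : Fin n × Fin n × Fin n, if jj T = x.1 ∧ Occ x.2 T then 1 else 0 := by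
      intro x
      unfold wt
      rw [card_filter]
    rw [sum_congr rfl fun x _ => h3 x, sum_comm]
    calc ∑ T : Fin n × Fin n × Fin n, ∑ x ∈ (sig jj).filter (fun x => b x.1 x.2 ≠ q x.2),
          (if jj T = x.1 ∧ Occ x.2 T then 1 else 0) ≤
        ∑ T : Fin n × Fin n × Fin n, if T ∈ bad jj q b then 3 else 0 := by
          refine sum_le_sum fun T _ => ?_
          rw [← card_filter]
          split_ifs with hT
          · refine (card_le_card (t := {(jj T, T.1), (jj T, T.2.1), (jj T, T.2.2)}) ?_).trans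
              card_le_three
            intro x hx
            rw [mem_filter] at hx
            obtain ⟨-, h4, h5⟩ := hx
            simp only [mem_insert, mem_singleton]
            rcases h5 with h5 | h5 | h5
            · exact Or.inl (Prod.ext h4.symm h5.symm)
            · exact Or.inr (Or.inl (Prod.ext h4.symm h5.symm))
            · exact Or.inr (Or.inr (Prod.ext h4.symm h5.symm))
          · rw [Nat.le_zero, card_eq_zero, filter_eq_empty_iff]
            intro x hx h6
            rw [mem_filter] at hx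
            apply hx.2
            obtain ⟨h4, h5⟩ := h6
            rw [bad, mem_filter, not_and, not_not] at hT
            have h7 := hT (mem_univ _)
            unfold pat at h7
            rw [Prod.mk.injEq, Prod.mk.injEq] at h7
            rw [← h4]
            rcases h5 with h5 | h5 | h5
            · rw [← h5]; exact h7.1
            · rw [← h5]; exact h7.2.1
            · rw [← h5]; exact h7.2.2
      _ = _ := by
          rw [← sum_filter, sum_const, smul_eq_mul, mul_comm]
          congr 2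
          ext T
          simp
  calc _ ≤ ∑ x ∈ (sig jj).filter fun x => b x.1 x.2 ≠ q x.2, 2 * t * wt jj x.1 x.2 := h1
    _ = 2 * t * ∑ x ∈ (sig jj).filter (fun x => b x.1 x.2 ≠ q x.2), wt jj x.1 x.2 := by
        rw [mul_sum]
    _ ≤ 2 * t * (3 * (bad jj q b).card) := Nat.mul_le_mul_left _ h2
    _ = _ := by ring

/-- Few mixtures miss few significant pairs. -/
lemma few_miss (V : Finset (Fin t × Fin n)) (hV : 8 * n ≤ V.card) (q : Fin n → Bool) :
    (univ.filter fun b : Fin t → Fin n → Bool =>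
      (V.filter fun x => b x.1 x.2 ≠ q x.2).card ≤ n).card * 4 ^ n ≤ (2 ^ n) ^ t := by
  obtain ⟨M, hM⟩ : ∃ M, M = V.card := ⟨_, rfl⟩
  rw [← hM] at hV
  obtain ⟨B, hB⟩ : ∃ B, B = univ.filter fun b : Fin t → Fin n → Bool =>
      (V.filter fun x => b x.1 x.2 ≠ q x.2).card ≤ n := ⟨_, rfl⟩
  rw [← hB]
  -- the total weight
  have h1 : ∑ b : Fin t → Fin n → Bool, ∏ x : Fin t × Fin n,
      (if x ∈ V ∧ b x.1 x.2 = q x.2 then 16 else 1) = 17 ^ M * 2 ^ (t * n - M) := by
    have h2 : ∑ b : Fin t → Fin n → Bool, ∏ x : Fin t × Fin n,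
        (if x ∈ V ∧ b x.1 x.2 = q x.2 then 16 else 1) =
        ∑ b : Fin t × Fin n → Bool, ∏ x : Fin t × Fin n,
          (if x ∈ V ∧ b x = q x.2 then 16 else 1) := by
      rw [← Equiv.sum_comp (Equiv.curry (Fin t) (Fin n) Bool)]
      rfl
    have h3 : ∏ x : Fin t × Fin n, ∑ s : Bool, (if x ∈ V ∧ s = q x.2 then 16 else 1) =
        ∑ b : Fin t × Fin n → Bool, ∏ x : Fin t × Fin n,
          (if x ∈ V ∧ b x = q x.2 then 16 else 1) := by
      rw [prod_univ_sum, Fintype.piFinset_univ]
    have h4 : ∀ x : Fin t × Fin n, ∑ s : Bool, (if x ∈ V ∧ s = q x.2 then 16 else 1) =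
        if x ∈ V then 17 else 2 := by
      intro x
      rw [Fintype.sum_bool]
      cases q x.2 <;> by_cases hx : x ∈ V <;> simp [hx]
    rw [h2, ← h3, prod_congr rfl fun x _ => h4 x, prod_ite, prod_const, prod_const]
    congr 2
    · rw [hM]
      congr 1
      ext x
      simp
    · have h5 : (univ.filter fun x => x ∉ V) = Vᶜ := by
        ext x
        simp
      rw [h5, card_compl, Fintype.card_prod, Fintype.card_fin, Fintype.card_fin, hM]
  have hMt : M ≤ t * n := by
    rw [hM]
    have := card_le_univ V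
    rwa [Fintype.card_prod, Fintype.card_fin, Fintype.card_fin] at this
  have h2 : B.card * 16 ^ M ≤ 16 ^ n * (17 ^ M * 2 ^ (t * n - M)) := by
    rw [← h1, mul_sum, ← smul_eq_mul, ← sum_const]
    calc ∑ _b ∈ B, 16 ^ M ≤ ∑ b ∈ B, 16 ^ n * ∏ x : Fin t × Fin n,
          (if x ∈ V ∧ b x.1 x.2 = q x.2 then 16 else 1) := by
          refine sum_le_sum fun b hb => ?_
          rw [hB, mem_filter] at hb
          rw [prod_ite, prod_const, prod_const_one, mul_one, ← pow_add]
          refine Nat.pow_le_pow_right (by norm_num) ?_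
          have h3 : V.card ≤ (V.filter fun x => b x.1 x.2 ≠ q x.2).card +
              (univ.filter fun x : Fin t × Fin n => x ∈ V ∧ b x.1 x.2 = q x.2).card := by
            refine le_trans (card_le_card ?_) (card_union_le _ _)
            intro x hx
            rw [mem_union, mem_filter, mem_filter]
            by_cases h4 : b x.1 x.2 = q x.2
            · exact Or.inr ⟨mem_univ _, hx, h4⟩
            · exact Or.inl ⟨hx, h4⟩
          rw [hM]
          exact h3.trans (Nat.add_le_add_right hb.2 _)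
      _ ≤ _ := sum_le_sum_of_subset (subset_univ _)
  have h3 : 17 ^ M * (16 ^ n * 4 ^ n) ≤ 32 ^ M := by
    obtain ⟨r, rfl⟩ := Nat.exists_eq_add_of_le hV
    calc 17 ^ (8 * n + r) * (16 ^ n * 4 ^ n) = (17 ^ 8 * 64) ^ n * 17 ^ r := by
          rw [pow_add, pow_mul, mul_pow (17 ^ 8) 64 n, ← mul_pow]
          ring
      _ ≤ (32 ^ 8) ^ n * 32 ^ r :=
          Nat.mul_le_mul (Nat.pow_le_pow_left (by norm_num) _) (Nat.pow_le_pow_left (by norm_num) _)
      _ = _ := by rw [pow_add, pow_mul]
  have h4 : (B.card * 4 ^ n) * (16 ^ n * 17 ^ M) ≤ (2 ^ n) ^ t * (16 ^ n * 17 ^ M) := by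
    calc (B.card * 4 ^ n) * (16 ^ n * 17 ^ M) = B.card * (17 ^ M * (16 ^ n * 4 ^ n)) := by ring
      _ ≤ B.card * 32 ^ M := Nat.mul_le_mul_left _ h3
      _ = (B.card * 16 ^ M) * 2 ^ M := by
          rw [mul_assoc, ← mul_pow]
          norm_num
      _ ≤ (16 ^ n * (17 ^ M * 2 ^ (t * n - M))) * 2 ^ M := Nat.mul_le_mul_right _ h2
      _ = (16 ^ n * 17 ^ M) * 2 ^ (t * n - M + M) := by rw [pow_add]; ring
      _ = _ := by rw [Nat.sub_add_cancel hMt, ← pow_mul, mul_comm t n]; ring
  exact Nat.le_of_mul_le_mul_right h4 (by positivity)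

/-- Most mixtures are far from satisfiable. -/
lemma few_bad (ht : t = 4097) (p : Clause n → Fin t)
    (hp : ∀ j, 64 * (univ.filter fun v => p v = j).card ≤ n ^ 3) :
    ∃ B : Finset (Fin t → Fin n → Bool), (∀ b, ¬ FarFromSatisfiable (mixp p zz b) → b ∈ B) ∧
      B.card * 2 ^ n ≤ (2 ^ n) ^ t := by
  classical
  obtain ⟨J, hJ⟩ : ∃ J : (Fin n → Bool) → Fin n × Fin n × Fin n → Fin t,
    J = fun q T => p (T, pat q T) := ⟨_, rfl⟩
  have hJp : ∀ q j, 64 * (univ.filter fun T => J q T = j).card ≤ n ^ 3 := by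
    intro q j
    refine le_trans (Nat.mul_le_mul_left 64 ?_) (hp j)
    refine card_le_card_of_injOn (fun T => (T, pat q T)) ?_ ?_
    · intro T hT
      rw [mem_coe, mem_filter] at hT ⊢
      refine ⟨mem_univ _, ?_⟩
      rw [← hT.2, hJ]
    · intro T _ T' _ h
      exact congrArg Prod.fst h
  refine ⟨univ.biUnion fun q : Fin n → Bool => univ.filter fun b : Fin t → Fin n → Bool =>
    ((sig (J q)).filter fun x => b x.1 x.2 ≠ q x.2).card ≤ n, ?_, ?_⟩
  · intro b hb
    unfold FarFromSatisfiable at hb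
    push Not at hb
    obtain ⟨q, hq⟩ := hb
    rw [mem_biUnion]
    refine ⟨q, mem_univ _, ?_⟩
    rw [mem_filter]
    refine ⟨mem_univ _, ?_⟩
    by_contra hcon
    push Not at hcon
    have h1 := miss_le (J q) q b
    have h2 : (bad (J q) q b).card ≤
        Nat.card {v // mixp p zz b v = true ∧ Falsifies q v} := by
      rw [Nat.card_eq_fintype_card, Fintype.card_subtype]
      refine card_le_card_of_injOn (fun T => (T, pat q T)) ?_ ?_
      · intro T hT
        rw [mem_coe, bad, mem_filter] at hT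
        rw [mem_coe, mem_filter]
        refine ⟨mem_univ _, ?_, rfl⟩
        show decide (pat (b (p (T, pat q T))) T ≠ pat q T) = true
        rw [decide_eq_true_iff]
        have h3 := hT.2
        rw [hJ] at h3
        exact h3
      · intro T _ T' _ h
        exact congrArg Prod.fst h
    rcases Nat.eq_zero_or_pos n with h0 | h0
    · subst h0
      simp at hq
    · have h3 : n * n ^ 2 < ((sig (J q)).filter fun x => b x.1 x.2 ≠ q x.2).card * n ^ 2 :=
        Nat.mul_lt_mul_of_pos_right hcon (by positivity)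
      have h4 : 6 * t * (bad (J q) q b).card ≤ 25000 * (bad (J q) q b).card :=
        Nat.mul_le_mul_right _ (by omega)
      have h5 := Nat.mul_le_mul_left 25000 h2
      have h6 : n ^ 3 = n * n ^ 2 := by ring
      omega
  · have h1 : ∀ q : Fin n → Bool, (univ.filter fun b : Fin t → Fin n → Bool =>
        ((sig (J q)).filter fun x => b x.1 x.2 ≠ q x.2).card ≤ n).card * 4 ^ n ≤ (2 ^ n) ^ t :=
      fun q => few_miss _ (sig_card (J q) (by omega) (hJp q)) q
    have h2 : (univ.biUnion fun q : Fin n → Bool => univ.filter fun b : Fin t → Fin n → Bool =>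
        ((sig (J q)).filter fun x => b x.1 x.2 ≠ q x.2).card ≤ n).card * 4 ^ n ≤
        2 ^ n * (2 ^ n) ^ t := by
      calc _ ≤ (∑ q : Fin n → Bool, (univ.filter fun b : Fin t → Fin n → Bool =>
            ((sig (J q)).filter fun x => b x.1 x.2 ≠ q x.2).card ≤ n).card) * 4 ^ n :=
            Nat.mul_le_mul_right _ card_biUnion_le
        _ = ∑ q : Fin n → Bool, (univ.filter fun b : Fin t → Fin n → Bool =>
            ((sig (J q)).filter fun x => b x.1 x.2 ≠ q x.2).card ≤ n).card * 4 ^ n := by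
              rw [sum_mul]
        _ ≤ ∑ _q : Fin n → Bool, (2 ^ n) ^ t := sum_le_sum fun q _ => h1 q
        _ = _ := by
            rw [sum_const, card_univ, Fintype.card_fun, Fintype.card_bool, Fintype.card_fin,
              smul_eq_mul]
    have h3 : (4 : ℕ) ^ n = 2 ^ n * 2 ^ n := by
      rw [← mul_pow]
      norm_num
    rw [h3, ← mul_assoc, mul_comm _ (2 ^ n)] at h2
    exact Nat.le_of_mul_le_mul_left h2 (by positivity)

end Pool.Agent.Q329.CNF
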