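import Mathlib

/-! 3-CNF formulas given by the presence bits of all clauses (helper329): definitions. -/

set_option autoImplicit false

namespace Pool.Agent.Q329.CNF

/-- The possible clauses of a 3-CNF formula with `n` variables: `((i, j, l), (a, b, c))` stands for the
clause which forbids the values `a, b, c` of the variables `i, j, l` (it has the three literals
`x i ≠ a`, `x j ≠ b`, `x l ≠ c`). A formula is a function `Clause n → Bool`, which tells for each possible
clause whether the formula contains it. -/
abbrev Clause (n : ℕ) : Type := (Fin n × Fin n × Fin n) × (Bool × Bool × Bool)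

/-- the values of the assignment `q` at three variables -/
def pat {n : ℕ} (q : Fin n → Bool) (T : Fin n × Fin n × Fin n) : Bool × Bool × Bool :=
  (q T.1, q T.2.1, q T.2.2)

/-- the assignment `q` falsifies the clause `v` -/
def Falsifies {n : ℕ} (q : Fin n → Bool) (v : Clause n) : Prop := pat q v.1 = v.2

/-- The formula `x` is satisfiable. -/
def Satisfiable {n : ℕ} (x : Clause n → Bool) : Prop :=
  ∃ q : Fin n → Bool, ∀ v, x v = true → ¬ Falsifies q v

/-- Every assignment falsifies at least `n ^ 3 / 25000` clauses of the formula `x`. -/
def FarFromSatisfiable {n : ℕ} (x : Clause n → Bool) : Prop :=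
  ∀ q : Fin n → Bool, n ^ 3 ≤ 25000 * Nat.card {v // x v = true ∧ Falsifies q v}

end Pool.Agent.Q329.CNF
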