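import Pool.Agent.Q329.CNF.Comb
import Pool.Agent.TH700.PA.Count

/-! Tensor networks for 3-CNF satisfiability (helper329). -/

set_option autoImplicit false
set_option linter.unusedSectionVars false
set_option linter.unusedVariables false

open Finset Pool.Agent.TH700.PA

namespace Pool.Agent.Q329.CNF

theorem lower : ∃ D : ℕ, 0 < D ∧ ∀ n : ℕ, D ≤ n →
    ∀ (μ : ℕ) (R : Type) [Fintype R] [Nonempty R] (K W : R → Type) [∀ ρ, Field (K ρ)]
      [∀ ρ, Fintype (W ρ)] (T : ∀ ρ, Net (K ρ) (Clause n) Bool (W ρ)) (a : ∀ ρ, W ρ → K ρ),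
      (∀ ρ v, (T ρ).reads v ≤ 1) →
      (∀ ρ x, FarFromSatisfiable x → (T ρ).value (a ρ) x = 0) →
      (∀ x, Satisfiable x →
        Nat.card R ≤ 2 ^ μ * Nat.card {ρ // (T ρ).value (a ρ) x ≠ 0}) →
      ∃ ρ, 2 ^ n ≤ (2 ^ μ * Fintype.card (W ρ)) ^ D := by
  classical
  obtain ⟨t, ht⟩ : ∃ t, t = 4097 := ⟨_, rfl⟩
  refine ⟨6 * (t + 1) + 2 * (t + 1) ^ 2, by positivity, ?_⟩
  intro n hn μ R _ _ K W _ _ T a h1 hno hyes
  have hnt : 2 * (t + 1) ^ 2 ≤ n := by omega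
  have hn1 : 128 ≤ n := by
    rw [ht] at hnt
    norm_num at hnt
    omega
  obtain ⟨θ, hθ⟩ : ∃ θ, θ = n ^ 3 / 128 := ⟨_, rfl⟩
  have hn3 : 128 ≤ n ^ 3 := by
    calc 128 ≤ n := hn1
      _ = n ^ 1 := (pow_one n).symm
      _ ≤ n ^ 3 := Nat.pow_le_pow_right (by omega) (by norm_num)
  have hθ1 : 1 ≤ θ := by omega
  have hE : 2 * Fintype.card (Clause n) + θ ≤ θ * t := by
    have h2 : Fintype.card (Clause n) = 8 * n ^ 3 := by
      rw [Fintype.card_prod, Fintype.card_prod, Fintype.card_prod, Fintype.card_prod,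
        Fintype.card_prod, Fintype.card_bool, Fintype.card_fin]
      ring
    rw [h2, ht]
    omega
  obtain ⟨ρ, hρ, hw1⟩ := rand_density μ R K W T a h1 (θ := θ) (t := t) hθ1 (by omega) hE
    (U := Fin n → Bool) zz (univ : Finset (Fin n → Bool)) (η := 0)
    (by rw [card_univ, pow_zero, one_mul])
    (fun P _ => hyes _ (zz_sat P)) (N := 2 ^ n) (fun ρ p hp => by
        obtain ⟨B, hB1, hB2⟩ := few_bad ht p (fun j => by
          have := hp j
          omega)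
        refine ⟨B, fun b hb => hB1 b fun hv => hb (hno ρ _ hv), ?_⟩
        rw [Fintype.card_fun, Fintype.card_bool, Fintype.card_fin]
        exact hB2)
  refine ⟨ρ, ?_⟩
  obtain ⟨w, hw⟩ : ∃ w, w = Fintype.card (W ρ) := ⟨_, rfl⟩
  rw [← hw] at hρ hw1 ⊢
  obtain ⟨X, hX⟩ : ∃ X, X = 2 ^ μ * w := ⟨_, rfl⟩
  have hX1 : 1 ≤ X := by
    rw [hX]
    exact Nat.mul_pos (Nat.pow_pos (by norm_num)) hw1
  rw [← hX]
  have e1 : 2 ^ (μ + 0 + 1) * (t * w ^ 3) ≤ 2 ^ (t + 1) * X ^ 3 := by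
    have e2 : t ≤ 2 ^ t := Nat.lt_two_pow_self.le
    have e3 : 2 ^ μ ≤ (2 ^ μ) ^ 3 := by
      conv_lhs => rw [← pow_one (2 ^ μ)]
      exact Nat.pow_le_pow_right (Nat.pow_pos (by norm_num)) (by norm_num)
    calc 2 ^ (μ + 0 + 1) * (t * w ^ 3) = 2 * (2 ^ μ * (t * w ^ 3)) := by
          rw [add_zero, pow_succ]; ring
      _ ≤ 2 * ((2 ^ μ) ^ 3 * (2 ^ t * w ^ 3)) := by
        refine Nat.mul_le_mul (by norm_num) (Nat.mul_le_mul e3 (Nat.mul_le_mul_right _ e2))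
      _ = _ := by rw [hX, pow_add]; ring
  have e4 : 2 ^ n ≤ 2 ^ ((t + 1) ^ 2) * X ^ (3 * (t + 1)) := by
    calc 2 ^ n ≤ (2 ^ (t + 1) * X ^ 3) ^ (t + 1) := hρ.trans (Nat.pow_le_pow_left e1 _)
      _ = _ := by rw [mul_pow, ← pow_mul, ← pow_mul, sq]
  have e5 : 2 ^ n * 2 ^ n ≤ 2 ^ n * X ^ (6 * (t + 1)) := by
    calc 2 ^ n * 2 ^ n ≤ (2 ^ ((t + 1) ^ 2) * X ^ (3 * (t + 1))) *
          (2 ^ ((t + 1) ^ 2) * X ^ (3 * (t + 1))) := Nat.mul_le_mul e4 e4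
      _ = 2 ^ (2 * (t + 1) ^ 2) * X ^ (6 * (t + 1)) := by
          rw [two_mul ((t + 1) ^ 2), pow_add, show 6 * (t + 1) = 3 * (t + 1) + 3 * (t + 1) by ring,
            pow_add X]
          ring
      _ ≤ _ := Nat.mul_le_mul_right _ (Nat.pow_le_pow_right (by norm_num) hnt)
  have e6 : 2 ^ n ≤ X ^ (6 * (t + 1)) :=
    Nat.le_of_mul_le_mul_left e5 (Nat.pow_pos (by norm_num))
  exact e6.trans (Nat.pow_le_pow_right hX1 (by omega))

/-- Conversely linear networks of dimension `2 ^ n` count the satisfying assignments. -/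
theorem upper {n : ℕ} (hn : 1 ≤ n) :
    ∃ (T : Net ℚ (Clause n) Bool (Fin n → Bool)) (a : (Fin n → Bool) → ℚ),
      T.Linear ∧ (∀ v, T.reads v = 1) ∧
      ∀ x, T.value a x = Nat.card {q : Fin n → Bool // ∀ v, x v = true → ¬ Falsifies q v} := by
  classical
  have : Nonempty (Fin n) := ⟨⟨0, hn⟩⟩
  obtain ⟨T, h1, h2, h3, h4⟩ := exists_product (K := ℚ)
    (fun (v : Clause n) (s : Bool) (q : Fin n → Bool) =>
      if s = true → ¬ Falsifies q v then (1 : ℚ) else 0)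
  refine ⟨T, fun _ => 1, h1, h2, fun x => ?_⟩
  unfold Net.value
  rw [Nat.card_eq_fintype_card, Fintype.card_subtype, card_filter]
  push_cast
  refine sum_congr rfl fun q _ => ?_
  rw [one_mul, h4]
  by_cases h : ∀ v, x v = true → ¬ Falsifies q v
  · rw [if_pos h]
    exact prod_eq_one fun v _ => if_pos (h v)
  · rw [if_neg h]
    push Not at h
    obtain ⟨v, hv1, hv2⟩ := h
    refine prod_eq_zero (mem_univ v) ?_
    rw [if_neg]
    intro h5
    exact h5 hv1 hv2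

end Pool.Agent.Q329.CNF
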